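import Mathlib
import Pool.Agent.H14IIB.Per

set_option autoImplicit false

open MeasureTheory Set Filter Topology
open scoped ENNReal Pointwise

namespace Pool.Agent.Results.MP_242fd5_gt.ConvexBackward

/-- `K` is an origin-symmetric convex body in `ℝⁿ`: compact, convex, with non-empty interior,
and `-x ∈ K` for every `x ∈ K`. -/
def IsSymmBody {n : ℕ} (K : Set (EuclideanSpace ℝ (Fin n))) : Prop :=
  IsCompact K ∧ Convex ℝ K ∧ (interior K).Nonempty ∧ ∀ x ∈ K, -x ∈ K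

/-- The intersection body `IK`, the star body with radial function
`u ↦ vol_{n-1} (K ∩ u^⊥)`: it contains `0`, and `x ≠ 0` belongs to it iff
`‖x‖ ≤ vol_{n-1} (K ∩ x^⊥)`.  `μHE[n - 1]` is the `(n-1)`-dimensional volume
(Euclidean Hausdorff measure). -/
def intersectionBody {n : ℕ} (K : Set (EuclideanSpace ℝ (Fin n))) :
    Set (EuclideanSpace ℝ (Fin n)) :=
  {x | x = 0 ∨ ENNReal.ofReal ‖x‖ ≤ μHE[n - 1] (K ∩ {y | inner ℝ x y = 0})}

/-- For `n ≥ 3`, the sets which for every `m ≥ 1` are the `m`-fold iterated intersection body of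
an origin-symmetric convex body are exactly the centered ellipsoids. -/
theorem result (n : ℕ) (hn : 3 ≤ n) (L : Set (EuclideanSpace ℝ (Fin n))) :
    (∀ m : ℕ, 1 ≤ m → ∃ K : Set (EuclideanSpace ℝ (Fin n)),
      IsSymmBody K ∧ intersectionBody^[m] K = L) ↔
    ∃ T : EuclideanSpace ℝ (Fin n) ≃ₗ[ℝ] EuclideanSpace ℝ (Fin n),
      L = T '' Metric.closedBall 0 1 := by
  obtain ⟨d, rfl⟩ : ∃ d, n = d + 1 := ⟨n - 1, by omega⟩
  rw [← Pool.Agent.H14IIB.per (by omega : 2 ≤ d) L]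
  constructor
  · intro h m hm
    obtain ⟨K, hK, e⟩ := h m hm
    exact ⟨K, ⟨hK.1, hK.2.1, hK.2.2.1, hK.2.2.2⟩, e⟩
  · intro h m hm
    obtain ⟨K, hK, e⟩ := h m hm
    exact ⟨K, ⟨hK.compact, hK.convex, hK.int_nonempty, hK.symm⟩, e⟩

end Pool.Agent.Results.MP_242fd5_gt.ConvexBackward
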